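import Pool.Agent.R922.Vis.Fin

/-!
# The number of visibility graphs of simple polygons: `log₂ N(n) = Θ(n log n)`

Lower bound: a polygon that is monotone in the horizontal direction.  Its upper boundary is a
strictly concave chain of vertices above `0, 1, …, L`, far away from the lower boundary, which is a
zigzag of peaks (at the even places) and valleys (at the odd places).  The depth of the valley at
`x` can be chosen such that it sees exactly the vertices of the upper chain at distance at most
`w x`, for an arbitrary number `w x`.  The valley at `1` is used as a reference: its degree is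
different from all other degrees, and the degree of another deep valley together with the number of
its common neighbours with the reference valley determine its place and its parameter.  So `k`
valleys with `k` possible parameters each give `k ^ k` pairwise non-isomorphic visibility graphs,
with `k ≥ n / 20`.

Upper bound: the visibility graph is determined by the side of the boundary on which the interior
lies and by the signs of `2 n ³` polynomials of degree 2 in the `2 n` coordinates of the vertices;
an elementary Warren-type bound gives at most `2 (16 n ³ + 1) ^ (2 n)` labelled graphs.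
-/

namespace Pool.Agent.Results.MP_af711c_co.OrderNLogN

open Vis124 Pool.Agent.R922.Vis Filter Asymptotics

/-- `N n` is the number of isomorphism classes of visibility graphs of simple polygons with `n`
vertices, `NS n` the number of those classes that are realized by a simple polygon without straight
angles.  For all `n ≥ 400`, `(1/40) n log₂ n ≤ log₂ (NS n) ≤ log₂ (N n) ≤ 8 n log₂ n`; in
particular `log₂ (N n)` and `log₂ (NS n)` are of order `n log n`. -/
theorem result :
    (∀ n : ℕ, 400 ≤ n →
      1 / 40 * ((n : ℝ) * Real.logb 2 n) ≤ Real.logb 2 (NS n) ∧ NS n ≤ N n ∧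
        Real.logb 2 (N n) ≤ 8 * ((n : ℝ) * Real.logb 2 n)) ∧
    (fun n : ℕ => Real.logb 2 (N n)) =Θ[atTop] (fun n : ℕ => (n : ℝ) * Real.logb 2 n) ∧
    (fun n : ℕ => Real.logb 2 (NS n)) =Θ[atTop] (fun n : ℕ => (n : ℝ) * Real.logb 2 n) := by
  have key : ∀ n : ℕ, 400 ≤ n →
      1 / 40 * ((n : ℝ) * Real.logb 2 n) ≤ Real.logb 2 (NS n) ∧
        Real.logb 2 (NS n) ≤ Real.logb 2 (N n) ∧
        Real.logb 2 (N n) ≤ 8 * ((n : ℝ) * Real.logb 2 n) ∧
        0 < (n : ℝ) * Real.logb 2 n := by
    intro n hn
    obtain ⟨h1, h2, h3⟩ := growth n hn
    have hn' : (400 : ℝ) ≤ n := by exact_mod_cast hn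
    have hpos : 0 < (n : ℝ) * Real.logb 2 n :=
      mul_pos (by linarith) (Real.logb_pos (by norm_num) (by linarith))
    refine ⟨h1, ?_, h3, hpos⟩
    have h4 : (0 : ℝ) < NS n := by
      by_contra hcon
      have h5 : (NS n : ℝ) = 0 := le_antisymm (not_lt.mp hcon) (Nat.cast_nonneg _)
      rw [h5, Real.logb_zero] at h1
      linarith
    exact Real.logb_le_logb_of_le (by norm_num) h4 (by exact_mod_cast h2)
  refine ⟨fun n hn => growth n hn, ⟨?_, ?_⟩, ⟨?_, ?_⟩⟩
  · refine IsBigO.of_bound 8 ?_
    filter_upwards [eventually_ge_atTop 400] with n hn
    obtain ⟨h1, h2, h3, h4⟩ := key n hn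
    rw [Real.norm_of_nonneg (by linarith), Real.norm_of_nonneg h4.le]
    exact h3
  · refine IsBigO.of_bound 40 ?_
    filter_upwards [eventually_ge_atTop 400] with n hn
    obtain ⟨h1, h2, h3, h4⟩ := key n hn
    rw [Real.norm_of_nonneg h4.le, Real.norm_of_nonneg (by linarith)]
    linarith
  · refine IsBigO.of_bound 8 ?_
    filter_upwards [eventually_ge_atTop 400] with n hn
    obtain ⟨h1, h2, h3, h4⟩ := key n hn
    rw [Real.norm_of_nonneg (by linarith), Real.norm_of_nonneg h4.le]
    linarith
  · refine IsBigO.of_bound 40 ?_
    filter_upwards [eventually_ge_atTop 400] with n hn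
    obtain ⟨h1, h2, h3, h4⟩ := key n hn
    rw [Real.norm_of_nonneg h4.le, Real.norm_of_nonneg (by linarith)]
    linarith

end Pool.Agent.Results.MP_af711c_co.OrderNLogN
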