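import Pool.Agent.R146.VG.Asym

/-!
The number `N n` of isomorphism classes of visibility graphs of simple polygons with `n` vertices
(defined in `Pool/Agent/R146/VG/Defs.lean`) is at least `((n + 1) / 3 - 3)!`, hence
`log₂ (N n) ≥ (1 / 3 - o(1)) n log₂ n`.
-/

set_option autoImplicit false

namespace Pool.Agent.Results.MP_af711c_co.SuperexponentialCount

open Filter Pool.Agent.R146.VG

theorem result :
    (∀ n : ℕ, 11 ≤ n → ((n + 1) / 3 - 3).factorial ≤ N n) ∧
      ∀ ε : ℝ, 0 < ε → ∀ᶠ n : ℕ in atTop,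
        (1 / 3 - ε) * (n * Real.logb 2 n) ≤ Real.logb 2 (N n) :=
  ⟨factorial_le, eventually_N⟩

end Pool.Agent.Results.MP_af711c_co.SuperexponentialCount
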